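import Pool.Agent.W576.IdealTetra

/-!
# Flexions of unbounded polyhedra in odd-dimensional hyperbolic space with non-constant volume

The definitions `form`, `lift`, `IsIsometry`, `Sends`, `hypVol`, `Adjacent`, `IsPseudomanifold`,
`genVol`, `IsUnboundedFlexion` are in `Pool.Agent.W576.IdealDefs`.
-/

namespace Pool.Agent.Results.MP_424e3d_gt.IdealTetrahedron

open Pool.Agent.W576.Ideal

/-- It is not true that for every `k ≥ 1` every flexion of an unbounded polyhedron of finite volume in
`Λ^{2k+1}` has constant generalised oriented volume: for `k = 1` the boundary of an ideal tetrahedron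
flexes (all ideal triangles are congruent) and its volume changes. -/
theorem result :
    ¬ ∀ k : ℕ, 1 ≤ k → ∀ (m : ℕ) (c : (Fin (2 * k + 1) → Fin m) → ℤ), IsPseudomanifold c →
      ∀ P : ℝ → Fin m → (Fin (2 * k + 1) → ℝ), IsUnboundedFlexion c P →
        ∀ s ∈ Set.Icc (0 : ℝ) 1, ∀ t ∈ Set.Icc (0 : ℝ) 1, genVol c (P s) = genVol c (P t) := by
  intro h
  have h1 := h 1 le_rfl 4 cT cT_pseudomanifold PT PT_flexion 0 ⟨le_rfl, zero_le_one⟩ 1
    ⟨zero_le_one, le_rfl⟩
  have h0 : genVol (d := 2) cT (PT 0) = 0 := genVol_zero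
  have h2 : genVol (d := 2) cT (PT 1) < 0 := genVol_one
  have h3 : genVol (d := 2) cT (PT 0) = genVol (d := 2) cT (PT 1) := h1
  linarith

end Pool.Agent.Results.MP_424e3d_gt.IdealTetrahedron
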